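import Pool.Agent.W781.LW.Stm

/-!
# Commutator inequality: the scalar inequality, the optimal shift and Lemma A give the main theorem
-/

set_option autoImplicit false

open Matrix

namespace Pool.Agent.W743.LWGlue

open Pool.Agent.W781.LW

variable {n : ℕ}

theorem fro_nonneg (A : Matrix (Fin n) (Fin n) ℂ) : 0 ≤ fro A := by
  unfold fro
  positivity

theorem fro_smul (c : ℂ) (A : Matrix (Fin n) (Fin n) ℂ) : fro (c • A) = ‖c‖ ^ 2 * fro A := by
  unfold fro
  simp only [Matrix.smul_apply, smul_eq_mul, norm_mul, mul_pow]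
  rw [Finset.mul_sum]
  refine Finset.sum_congr rfl fun i _ => ?_
  rw [Finset.mul_sum]

theorem fro_trace (A : Matrix (Fin n) (Fin n) ℂ) : ((fro A : ℝ) : ℂ) = trace (A * Aᴴ) := by
  unfold fro trace
  push_cast
  refine Finset.sum_congr rfl fun i _ => ?_
  rw [Matrix.diag_apply, Matrix.mul_apply]
  refine Finset.sum_congr rfl fun j _ => ?_
  rw [Matrix.conjTranspose_apply, Complex.star_def, Complex.mul_conj, Complex.normSq_eq_norm_sq]
  push_cast
  rfl

theorem trace_conj {U : Matrix (Fin n) (Fin n) ℂ} (hU : U * Uᴴ = 1)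
    (A C : Matrix (Fin n) (Fin n) ℂ) :
    trace ((Uᴴ * A * U) * (Uᴴ * C * U)ᴴ) = trace (A * Cᴴ) := by
  have h1 : (Uᴴ * A * U) * (Uᴴ * C * U)ᴴ = Uᴴ * (A * Cᴴ * U) := by
    rw [Matrix.conjTranspose_mul, Matrix.conjTranspose_mul, Matrix.conjTranspose_conjTranspose]
    have : Uᴴ * A * U * (Uᴴ * (Cᴴ * U)) = Uᴴ * A * (U * Uᴴ) * (Cᴴ * U) := by
      simp only [Matrix.mul_assoc]
    rw [this, hU, Matrix.mul_one]
    simp only [Matrix.mul_assoc]
  rw [h1, Matrix.trace_mul_comm]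
  have h2 : A * Cᴴ * U * Uᴴ = A * Cᴴ * (U * Uᴴ) := by simp only [Matrix.mul_assoc]
  rw [h2, hU, Matrix.mul_one]

theorem fro_conj {U : Matrix (Fin n) (Fin n) ℂ} (hU : U * Uᴴ = 1)
    (A : Matrix (Fin n) (Fin n) ℂ) : fro (Uᴴ * A * U) = fro A := by
  have h := trace_conj hU A A
  rw [← fro_trace, ← fro_trace] at h
  exact_mod_cast h

theorem com_conj {U : Matrix (Fin n) (Fin n) ℂ} (hU : U * Uᴴ = 1)
    (X Z : Matrix (Fin n) (Fin n) ℂ) :
    com (Uᴴ * X * U) (Uᴴ * Z * U) = Uᴴ * com X Z * U := by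
  unfold com
  have h1 : ∀ A C : Matrix (Fin n) (Fin n) ℂ,
      Uᴴ * A * U * (Uᴴ * C * U) = Uᴴ * (A * C) * U := by
    intro A C
    have : Uᴴ * A * U * (Uᴴ * C * U) = Uᴴ * A * (U * Uᴴ) * C * U := by
      simp only [Matrix.mul_assoc]
    rw [this, hU, Matrix.mul_one]
    simp only [Matrix.mul_assoc]
  rw [h1, h1, Matrix.mul_sub, Matrix.sub_mul]

theorem com_shift (X Z : Matrix (Fin n) (Fin n) ℂ) (α : ℂ) :
    com (X - α • (1 : Matrix (Fin n) (Fin n) ℂ)) Z = com X Z := by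
  unfold com
  rw [Matrix.sub_mul, Matrix.mul_sub, Matrix.smul_mul, Matrix.mul_smul, Matrix.one_mul,
    Matrix.mul_one]
  abel

theorem dg_eq (B : Matrix (Fin n) (Fin n) ℂ) (i : Fin n) :
    dg B i = ∑ j, (‖B i j‖ ^ 2 + ‖B j i‖ ^ 2) := by
  unfold dg DD
  rw [Matrix.add_apply, Matrix.mul_apply, Matrix.mul_apply, ← Finset.sum_add_distrib,
    Complex.re_sum]
  refine Finset.sum_congr rfl fun j _ => ?_
  rw [Matrix.conjTranspose_apply, Matrix.conjTranspose_apply, Complex.star_def,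
    Complex.mul_conj, mul_comm ((starRingEnd ℂ) (B j i)), Complex.mul_conj,
    Complex.normSq_eq_norm_sq, Complex.normSq_eq_norm_sq, ← Complex.ofReal_add, Complex.ofReal_re]

theorem entry (B : Matrix (Fin n) (Fin n) ℂ) (i j k l : Fin n) :
    com Bᴴ (Matrix.single i j (1 : ℂ)) k l =
      (if l = j then star (B i k) else 0) - (if k = i then star (B l j) else 0) := by
  unfold com
  rw [Matrix.sub_apply, Matrix.mul_apply, Matrix.mul_apply]
  congr 1
  · rw [Finset.sum_eq_single i]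
    · rw [Matrix.conjTranspose_apply, Matrix.single_apply]
      by_cases h : l = j
      · simp [h]
      · rw [if_neg h, if_neg (by rintro ⟨-, h'⟩; exact h h'.symm), mul_zero]
    · intro b _ hb
      rw [Matrix.single_apply, if_neg (by rintro ⟨h', -⟩; exact hb h'.symm), mul_zero]
    · intro h; exact absurd (Finset.mem_univ _) h
  · rw [Finset.sum_eq_single j]
    · rw [Matrix.conjTranspose_apply, Matrix.single_apply]
      by_cases h : k = i
      · simp [h]
      · rw [if_neg h, if_neg (by rintro ⟨h', -⟩; exact h h'.symm), zero_mul]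
    · intro b _ hb
      rw [Matrix.single_apply, if_neg (by rintro ⟨-, h'⟩; exact hb h'.symm), zero_mul]
    · intro h; exact absurd (Finset.mem_univ _) h

theorem nsq (z w : ℂ) : ‖z - w‖ ^ 2 = ‖z‖ ^ 2 + ‖w‖ ^ 2 - 2 * (star z * w).re := by
  rw [← Complex.normSq_eq_norm_sq, ← Complex.normSq_eq_norm_sq, ← Complex.normSq_eq_norm_sq,
    Complex.normSq_apply, Complex.normSq_apply, Complex.normSq_apply]
  simp only [Complex.sub_re, Complex.sub_im, Complex.mul_re, Complex.star_def, Complex.conj_re,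
    Complex.conj_im]
  ring

theorem fro_single (B : Matrix (Fin n) (Fin n) ℂ) (i j : Fin n) :
    fro (com Bᴴ (Matrix.single i j (1 : ℂ))) =
      ∑ l, ‖B i l‖ ^ 2 + ∑ l, ‖B l j‖ ^ 2 - 2 * (star (B i i) * B j j).re := by
  have h1 : ∀ k l : Fin n, ‖com Bᴴ (Matrix.single i j (1 : ℂ)) k l‖ ^ 2 =
      (if l = j then ‖B i k‖ ^ 2 else 0) + (if k = i then ‖B l j‖ ^ 2 else 0) -
        (if k = i then (if l = j then 2 * (star (B i i) * B j j).re else 0) else 0) := by
    intro k l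
    rw [entry]
    by_cases h : l = j
    · by_cases h' : k = i
      · subst h; subst h'
        simp only [if_true]
        rw [← star_sub, norm_star, nsq]
      · simp [h, h']
    · by_cases h' : k = i
      · simp [h, h']
      · simp [h, h']
  unfold fro
  simp only [h1, Finset.sum_sub_distrib, Finset.sum_add_distrib, Finset.sum_ite_eq',
    Finset.mem_univ, if_true, Finset.sum_ite_irrel, Finset.sum_const_zero]

theorem single_symm (B : Matrix (Fin n) (Fin n) ℂ) (i j : Fin n) :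
    fro (com Bᴴ (Matrix.single i j (1 : ℂ))) + fro (com Bᴴ (Matrix.single j i (1 : ℂ))) =
      2 * st (fun i => B i i) (fun i => dg B i - 2 * ‖B i i‖ ^ 2) i j := by
  rw [fro_single, fro_single]
  unfold st
  beta_reduce
  rw [dg_eq, dg_eq, nsq, Finset.sum_add_distrib, Finset.sum_add_distrib]
  have h : (star (B j j) * B i i).re = (star (B i i) * B j j).re := by
    simp only [Complex.mul_re, Complex.star_def, Complex.conj_re, Complex.conj_im]
    ring
  rw [h]
  ring

theorem R_eq (B : Matrix (Fin n) (Fin n) ℂ) :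
    ∑ i, ∑ j, ww (dg B i + dg B j) * fro (com Bᴴ (Matrix.single i j (1 : ℂ))) =
      ∑ i, ∑ j, ww (dg B i + dg B j) *
        st (fun i => B i i) (fun i => dg B i - 2 * ‖B i i‖ ^ 2) i j := by
  have h1 : ∑ i, ∑ j, ww (dg B i + dg B j) * fro (com Bᴴ (Matrix.single i j (1 : ℂ))) =
      ∑ i, ∑ j, ww (dg B i + dg B j) * fro (com Bᴴ (Matrix.single j i (1 : ℂ))) := by
    rw [Finset.sum_comm]
    refine Finset.sum_congr rfl fun i _ => Finset.sum_congr rfl fun j _ => ?_
    rw [add_comm (dg B j)]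
  have h2 : ∑ i, ∑ j, ww (dg B i + dg B j) * fro (com Bᴴ (Matrix.single i j (1 : ℂ))) +
      ∑ i, ∑ j, ww (dg B i + dg B j) * fro (com Bᴴ (Matrix.single j i (1 : ℂ))) =
      2 * ∑ i, ∑ j, ww (dg B i + dg B j) *
        st (fun i => B i i) (fun i => dg B i - 2 * ‖B i i‖ ^ 2) i j := by
    rw [← Finset.sum_add_distrib, Finset.mul_sum]
    refine Finset.sum_congr rfl fun i _ => ?_
    rw [← Finset.sum_add_distrib, Finset.mul_sum]
    refine Finset.sum_congr rfl fun j _ => ?_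
    rw [← mul_add, single_symm]
    ring
  linarith

theorem r_nonneg (B : Matrix (Fin n) (Fin n) ℂ) (i : Fin n) : 0 ≤ dg B i - 2 * ‖B i i‖ ^ 2 := by
  rw [dg_eq]
  have h := Finset.single_le_sum (f := fun j => ‖B i j‖ ^ 2 + ‖B j i‖ ^ 2)
    (fun j _ => by positivity) (Finset.mem_univ i)
  linarith

theorem r_ge (B : Matrix (Fin n) (Fin n) ℂ) {i j : Fin n} (h : i ≠ j) :
    ‖B i j‖ ^ 2 + ‖B j i‖ ^ 2 ≤ dg B j - 2 * ‖B j j‖ ^ 2 := by
  rw [dg_eq]
  have h1 : ∑ k ∈ ({i, j} : Finset (Fin n)), (‖B j k‖ ^ 2 + ‖B k j‖ ^ 2) ≤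
      ∑ k, (‖B j k‖ ^ 2 + ‖B k j‖ ^ 2) :=
    Finset.sum_le_sum_of_subset_of_nonneg (Finset.subset_univ _) fun k _ _ => by positivity
  rw [Finset.sum_pair h] at h1
  linarith

theorem r_two (B : Matrix (Fin n) (Fin n) ℂ) (i : Fin n) :
    2 * (dg B i - 2 * ‖B i i‖ ^ 2) ≤ ∑ j, (dg B j - 2 * ‖B j j‖ ^ 2) := by
  have h1 : dg B i - 2 * ‖B i i‖ ^ 2 =
      ∑ j ∈ Finset.univ.erase i, (‖B i j‖ ^ 2 + ‖B j i‖ ^ 2) := by
    rw [dg_eq, ← Finset.sum_erase_add _ _ (Finset.mem_univ i)]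
    ring
  have h2 : ∑ j, (dg B j - 2 * ‖B j j‖ ^ 2) =
      ∑ j ∈ Finset.univ.erase i, (dg B j - 2 * ‖B j j‖ ^ 2) + (dg B i - 2 * ‖B i i‖ ^ 2) :=
    (Finset.sum_erase_add _ _ (Finset.mem_univ i)).symm
  have h3 : ∑ j ∈ Finset.univ.erase i, (‖B i j‖ ^ 2 + ‖B j i‖ ^ 2) ≤
      ∑ j ∈ Finset.univ.erase i, (dg B j - 2 * ‖B j j‖ ^ 2) := by
    refine Finset.sum_le_sum fun j hj => ?_
    exact r_ge B (Finset.ne_of_mem_erase hj).symm
  rw [h2]
  linarith

theorem norm_one (Y B : Matrix (Fin n) (Fin n) ℂ) (α : ℂ)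
    (hB : B = Y - α • (1 : Matrix (Fin n) (Fin n) ℂ)) :
    ∑ i, ((dg B i - 2 * ‖B i i‖ ^ 2) / 2 + ‖B i i - (-α)‖ ^ 2) = fro Y := by
  have hY : ∀ i j, Y i j = B i j + if i = j then α else 0 := by
    intro i j
    rw [hB, Matrix.sub_apply, Matrix.smul_apply, Matrix.one_apply, smul_eq_mul]
    split_ifs <;> ring
  have h1 : ∀ i, ∑ j, ‖Y i j‖ ^ 2 = ∑ j, ‖B i j‖ ^ 2 - ‖B i i‖ ^ 2 + ‖B i i + α‖ ^ 2 := by
    intro i
    rw [← Finset.sum_erase_add _ _ (Finset.mem_univ i),
      ← Finset.sum_erase_add (a := i) (f := fun j => ‖B i j‖ ^ 2) _ (Finset.mem_univ i)]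
    have h2 : ∑ j ∈ Finset.univ.erase i, ‖Y i j‖ ^ 2 = ∑ j ∈ Finset.univ.erase i, ‖B i j‖ ^ 2 := by
      refine Finset.sum_congr rfl fun j hj => ?_
      rw [hY, if_neg (Finset.ne_of_mem_erase hj).symm, add_zero]
    rw [h2, hY i i, if_pos rfl]
    ring
  unfold fro
  simp only [h1]
  simp only [dg_eq, sub_neg_eq_add, Finset.sum_add_distrib, Finset.sum_sub_distrib]
  have h3 : ∑ i, (∑ j, ‖B i j‖ ^ 2 + ∑ j, ‖B j i‖ ^ 2 - 2 * ‖B i i‖ ^ 2) / 2 =
      ∑ i, ∑ j, ‖B i j‖ ^ 2 - ∑ i, ‖B i i‖ ^ 2 := by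
    rw [← Finset.sum_div, Finset.sum_sub_distrib, Finset.sum_add_distrib,
      Finset.sum_comm (f := fun i j => ‖B j i‖ ^ 2), ← Finset.mul_sum]
    ring
  rw [h3]

theorem glue (hS : S_SCAL) (hO : S_OPT) (hL : S_LEMA) : S_MAIN := by
  intro n m X Z M hM horth hfro
  have hsum : 0 ≤ ∑ a, fro (Z a) := Finset.sum_nonneg fun a _ => fro_nonneg _
  have hrhs : 0 ≤ (2 * M + ∑ a, fro (Z a)) * fro X :=
    mul_nonneg (by positivity) (fro_nonneg _)
  -- the trivial cases
  by_cases hn : n < 2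
  · have h0 : ∀ a, fro (com X (Z a)) = 0 := by
      intro a
      have hz : com X (Z a) = 0 := by
        ext i j
        have hs : Subsingleton (Fin n) := by
          rw [Fin.subsingleton_iff_le_one]; omega
        unfold com
        rw [Matrix.sub_apply, Matrix.mul_apply, Matrix.mul_apply, Matrix.zero_apply,
          ← Finset.sum_sub_distrib]
        refine Finset.sum_eq_zero fun k _ => ?_
        rw [Subsingleton.elim k i, Subsingleton.elim j i]
        ring
      rw [hz]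
      unfold fro
      simp
    rw [Finset.sum_eq_zero fun a _ => h0 a]
    exact hrhs
  push Not at hn
  rcases (fro_nonneg X).eq_or_lt with h0 | hpos
  · have hX : X = 0 := by
      ext i j
      have h1 : ∑ i, ∑ j, ‖X i j‖ ^ 2 = 0 := h0.symm
      rw [Finset.sum_eq_zero_iff_of_nonneg (fun i _ => by positivity)] at h1
      have h2 := h1 i (Finset.mem_univ _)
      rw [Finset.sum_eq_zero_iff_of_nonneg (fun i _ => by positivity)] at h2
      have h3 := h2 j (Finset.mem_univ _)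
      simpa using h3
    have h1 : ∀ a, fro (com X (Z a)) = 0 := by
      intro a
      rw [hX]
      unfold com fro
      simp
    rw [Finset.sum_eq_zero fun a _ => h1 a]
    exact hrhs
  -- the normalised case
  have key : ∀ X : Matrix (Fin n) (Fin n) ℂ, fro X = 1 →
      ∑ a, fro (com X (Z a)) ≤ 2 * M + ∑ a, fro (Z a) := by
    intro X hX
    obtain ⟨U, B, α, p, hU1, hU2, hB, hp0, hp1, hp2, hpa, hD, hex⟩ := hO n X hn
    have h1 : ∀ a, fro (com X (Z a)) = fro (com B (Uᴴ * Z a * U)) := by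
      intro a
      rw [hB, com_shift, com_conj hU2, fro_conj hU2]
    have h2 : ∀ a, fro (Uᴴ * Z a * U) = fro (Z a) := fun a => fro_conj hU2 _
    have h3 := hL n m B (fun a => Uᴴ * Z a * U) M hM hD
      (fun a b hab => by rw [trace_conj hU2]; exact horth a b hab)
      (fun a => by rw [h2]; exact hfro a)
    simp only [h2] at h3
    rw [Finset.sum_congr rfl fun a _ => h1 a]
    refine h3.trans ?_
    rw [R_eq]
    have h4 := hS n p (fun i => dg B i - 2 * ‖B i i‖ ^ 2) (fun i => B i i) (-α) hp0 hp1 hp2 hpa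
      (fun i => r_nonneg B i) (fun i => r_two B i)
      (by
        intro i j hi hj
        unfold sd
        simp only
        have := hex i j hi hj
        linarith)
      (by
        rw [norm_one (Uᴴ * X * U) B α hB, fro_conj hU2, hX])
    have h5 : ∀ i, sd (fun i => B i i) (fun i => dg B i - 2 * ‖B i i‖ ^ 2) i = dg B i := by
      intro i
      unfold sd
      simp only
      ring
    simp only [h5] at h4
    nlinarith [mul_le_mul_of_nonneg_left h4 hM]
  -- scaling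
  set s : ℝ := Real.sqrt (fro X) with hs
  have hs0 : 0 < s := Real.sqrt_pos.2 hpos
  have hs2 : s ^ 2 = fro X := Real.sq_sqrt hpos.le
  have hsc : X = (s : ℂ) • ((s : ℂ)⁻¹ • X) := by
    rw [smul_smul, mul_inv_cancel₀ (by exact_mod_cast hs0.ne'), one_smul]
  have hn1 : fro ((s : ℂ)⁻¹ • X) = 1 := by
    rw [fro_smul, norm_inv, Complex.norm_real, Real.norm_of_nonneg hs0.le, inv_pow, hs2]
    exact inv_mul_cancel₀ hpos.ne'
  have hc : ∀ a, fro (com X (Z a)) = fro X * fro (com ((s : ℂ)⁻¹ • X) (Z a)) := by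
    intro a
    have : com X (Z a) = (s : ℂ) • com ((s : ℂ)⁻¹ • X) (Z a) := by
      unfold com
      rw [smul_sub, Matrix.smul_mul, Matrix.mul_smul, smul_smul, smul_smul,
        mul_inv_cancel₀ (by exact_mod_cast hs0.ne'), one_smul, one_smul]
    rw [this, fro_smul, Complex.norm_real, Real.norm_of_nonneg hs0.le, hs2]
  rw [Finset.sum_congr rfl fun a _ => hc a, ← Finset.mul_sum, mul_comm]
  exact mul_le_mul_of_nonneg_right (key _ hn1) hpos.le

end Pool.Agent.W743.LWGlue
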